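import Pool.Agent.R684.GP.Stm

set_option autoImplicit false

namespace Pool.Agent.R684.GP.GPTF

theorem normalCore_bound {G : Type} [Group G] (K : Subgroup G) (hK : K.index ≠ 0) :
    K.normalCore.index ≠ 0 ∧ K.normalCore.index ≤ (K.index).factorial := by
  have : K.FiniteIndex := ⟨hK⟩
  have : Finite (G ⧸ K) := inferInstance
  rw [Subgroup.normalCore_eq_ker, Subgroup.index_ker]
  constructor
  · exact Nat.card_pos.ne'
  · have h := Nat.card_le_card_of_injective (Subtype.val :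
      (MulAction.toPermHom G (G ⧸ K)).range → Equiv.Perm (G ⧸ K)) Subtype.val_injective
    rw [Nat.card_perm] at h
    exact h

theorem key {X : Type} (C : Subgroup (FreeGroup X)) [C.Normal] (hC : C.index ≠ 0) (p : ℕ)
    (hp : p.Prime) (x : FreeGroup X) (hx : x ∉ C) (hxp : x ^ p ∈ C) :
    ∃ K : Subgroup (FreeGroup X), K.index ≠ 0 ∧ K.index ≤ p ^ 2 * C.index ∧ x ^ p ∉ K := by
  obtain ⟨y, hy⟩ : ∃ y : FreeGroup X ⧸ C, y = QuotientGroup.mk' C x := ⟨_, rfl⟩
  have hyp : y ^ p = 1 := by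
    rw [hy, ← map_pow]
    exact (QuotientGroup.eq_one_iff _).mpr hxp
  have hy1 : y ≠ 1 := by
    intro h
    apply hx
    rw [hy] at h
    exact (QuotientGroup.eq_one_iff _).mp h
  obtain ⟨H, hH⟩ : ∃ H : Subgroup (FreeGroup X),
      H = (Subgroup.zpowers y).comap (QuotientGroup.mk' C) := ⟨_, rfl⟩
  have hmemH : ∀ h : H, ∃ n : ℤ, y ^ n = QuotientGroup.mk' C (h : FreeGroup X) := by
    intro h
    have h1 : (h : FreeGroup X) ∈ (Subgroup.zpowers y).comap (QuotientGroup.mk' C) := hH ▸ h.2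
    exact Subgroup.mem_zpowers_iff.mp (Subgroup.mem_comap.mp h1)
  choose n hn using fun s : IsFreeGroup.Generators H => hmemH (IsFreeGroup.of s)
  let φ : H →* Multiplicative ℤ := IsFreeGroup.lift (fun s => Multiplicative.ofAdd (n s))
  have hφ : ∀ h : H, y ^ (Multiplicative.toAdd (φ h)) = QuotientGroup.mk' C (h : FreeGroup X) := by
    have e : (zpowersHom _ y).comp φ = (QuotientGroup.mk' C).comp H.subtype := by
      apply IsFreeGroup.ext_hom
      intro s
      simp only [MonoidHom.comp_apply, φ, IsFreeGroup.lift_of, zpowersHom_apply, toAdd_ofAdd]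
      exact hn s
    intro h
    have := DFunLike.congr_fun e h
    simpa [zpowersHom_apply] using this
  have hxH : x ∈ H := by
    rw [hH, Subgroup.mem_comap, ← hy]
    exact Subgroup.mem_zpowers y
  let θ : H →* Multiplicative (ZMod (p ^ 2)) :=
    (AddMonoidHom.toMultiplicative (Int.castAddHom (ZMod (p ^ 2)))).comp φ
  have : NeZero (p ^ 2) := ⟨pow_ne_zero 2 hp.ne_zero⟩
  have : Finite (Multiplicative (ZMod (p ^ 2))) := inferInstanceAs (Finite (ZMod (p ^ 2)))
  have hCH : C ≤ H := by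
    intro c hc
    rw [hH, Subgroup.mem_comap]
    have : QuotientGroup.mk' C c = 1 := (QuotientGroup.eq_one_iff _).mpr hc
    rw [this]
    exact one_mem _
  have hHC : H.index ∣ C.index := Subgroup.index_dvd_of_le hCH
  have hH0 : H.index ≠ 0 := fun h => hC (by rw [h] at hHC; exact zero_dvd_iff.mp hHC)
  have hH1 : H.index ≤ C.index := Nat.le_of_dvd (Nat.pos_of_ne_zero hC) hHC
  have hK1 : θ.ker.index ≤ p ^ 2 := by
    rw [Subgroup.index_ker]
    have h := Nat.card_le_card_of_injective (Subtype.val : θ.range → Multiplicative (ZMod (p ^ 2)))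
      Subtype.val_injective
    have h2 : Nat.card (Multiplicative (ZMod (p ^ 2))) = p ^ 2 := by
      rw [Nat.card_congr Multiplicative.toAdd, Nat.card_zmod]
    rwa [h2] at h
  have hK0 : θ.ker.index ≠ 0 := by
    rw [Subgroup.index_ker]
    exact Nat.card_pos.ne'
  refine ⟨θ.ker.map H.subtype, ?_, ?_, ?_⟩
  · rw [Subgroup.index_map_subtype]
    exact mul_ne_zero hK0 hH0
  · rw [Subgroup.index_map_subtype]
    exact Nat.mul_le_mul hK1 hH1
  · rintro ⟨k, hk, hkx⟩
    have hkx' : k = (⟨x, hxH⟩ : H) ^ p := Subtype.ext (by simpa using hkx)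
    have h1 : θ k = 1 := hk
    have h2 : ((Multiplicative.toAdd (φ k) : ℤ) : ZMod (p ^ 2)) = 0 := h1
    rw [ZMod.intCast_zmod_eq_zero_iff_dvd] at h2
    rw [hkx', map_pow, toAdd_pow] at h2
    have h3 : (p : ℤ) ∣ Multiplicative.toAdd (φ ⟨x, hxH⟩) := by
      rw [nsmul_eq_mul] at h2
      push_cast at h2
      rw [pow_two] at h2
      exact Int.dvd_of_mul_dvd_mul_left (by exact_mod_cast hp.ne_zero) h2
    obtain ⟨m, hm⟩ := h3
    have h4 := hφ ⟨x, hxH⟩
    rw [hm, zpow_mul, zpow_natCast, hyp, one_zpow] at h4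
    exact hy1 (hy.trans h4.symm)

end Pool.Agent.R684.GP.GPTF

namespace Pool.Agent.R684.GP

theorem t_TF (hCO : S_CO) (hGQ : S_GQ) : S_TF := by
  intro A X _ _ _ hFQ hRF a ha
  by_contra ha1
  -- an element of prime order
  have ho : orderOf a ≠ 1 := fun h => ha1 (orderOf_eq_one_iff.mp h)
  obtain ⟨p, hp, hpd⟩ := Nat.exists_prime_and_dvd ho
  have ho0 : orderOf a ≠ 0 := (orderOf_pos_iff.mpr ha).ne'
  obtain ⟨w, hw⟩ : ∃ w : A, orderOf w = p := ⟨_, orderOf_pow_orderOf_div ho0 hpd⟩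
  have hw1 : w ≠ 1 := by
    intro h
    rw [h, orderOf_one] at hw
    exact hp.one_lt.ne hw
  have hwp : w ^ p = 1 := hw ▸ pow_orderOf_eq_one w
  obtain ⟨N, hN1, hN2, hwN⟩ := hRF w hw1
  obtain ⟨i, hi⟩ : ∃ i, i = N.index := ⟨_, rfl⟩
  have hwc : w ∉ core A i := by
    intro h
    apply hwN
    exact (Subgroup.mem_sInf.mp h) N ⟨hN1, hN2.index_ne_zero, hi.ge⟩
  obtain ⟨hCn, hC0⟩ := hCO (FreeGroup X) i
  obtain ⟨J, hJ⟩ : ∃ J, J = max i (p ^ 2 * (core (FreeGroup X) i).index).factorial := ⟨_, rfl⟩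
  obtain ⟨hRn, hR0⟩ := hCO (FreeGroup X) J
  have hRC : core (FreeGroup X) J ≤ core (FreeGroup X) i := by
    apply sInf_le_sInf
    rintro M ⟨h1, h2, h3⟩
    exact ⟨h1, h2, h3.trans (hJ ▸ le_max_left _ _)⟩
  obtain ⟨-, g, hgs, hg⟩ := hGQ A (FreeGroup X) hFQ i (core (FreeGroup X) J) hR0 hRC
  obtain ⟨x, hx⟩ := QuotientGroup.mk'_surjective (core (FreeGroup X) J) (g w)
  have hxC : x ∉ core (FreeGroup X) i := by
    intro h
    exact hwc ((hg w).mp (hx ▸ Subgroup.mem_map_of_mem _ h))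
  have hxp : x ^ p ∈ core (FreeGroup X) J := by
    have h1 : QuotientGroup.mk' (core (FreeGroup X) J) (x ^ p) = 1 := by
      rw [map_pow, hx, ← map_pow, hwp, map_one]
    exact (QuotientGroup.eq_one_iff _).mp h1
  obtain ⟨K, hK0, hK1, hK2⟩ := GPTF.key (core (FreeGroup X) i) hC0 p hp x hxC (hRC hxp)
  apply hK2
  have hb := GPTF.normalCore_bound K hK0
  have h2 : K.normalCore ∈ {N : Subgroup (FreeGroup X) | N.Normal ∧ N.index ≠ 0 ∧ N.index ≤ J} :=
    ⟨Subgroup.normalCore_normal K, hb.1,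
      hb.2.trans ((Nat.factorial_le hK1).trans (hJ ▸ le_max_right _ _))⟩
  exact Subgroup.normalCore_le K ((Subgroup.mem_sInf.mp hxp) _ h2)

end Pool.Agent.R684.GP
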